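import Mathlib

/-!
# Composition of O'Nan-free linear spaces with 3-graphs without 2-regular subgraphs on 6 vertices
-/

namespace Pool.Agent.Helper23.TwoReg

open Finset

/-- every vertex covered by `F` lies in exactly two members of `F` -/
def TwoReg {α : Type*} [DecidableEq α] (F : Finset (Finset α)) : Prop :=
  ∀ v ∈ F.biUnion id, (F.filter (fun e => v ∈ e)).card = 2

/-- no 2-regular subgraph on six vertices -/
def Good {α : Type*} [DecidableEq α] (H : Finset (Finset α)) : Prop :=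
  ∀ F ⊆ H, TwoReg F → (F.biUnion id).card ≠ 6

/-- `n` carries a good 3-graph with `n choose 2` edges. -/
def HasGood (n : ℕ) : Prop :=
  ∃ H : Finset (Finset (Fin n)), (∀ e ∈ H, e.card = 3) ∧ Good H ∧ H.card = n.choose 2

section transfer

variable {α β : Type*} [DecidableEq α] [DecidableEq β]

lemma biUnion_map_emb (ψ : β ↪ α) (F : Finset (Finset β)) :
    (F.map (Finset.mapEmbedding ψ).toEmbedding).biUnion id = (F.biUnion id).map ψ := by
  ext a
  simp only [mem_biUnion, mem_map, id]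
  constructor
  · rintro ⟨e, ⟨f, hf, rfl⟩, ha⟩
    obtain ⟨b, hb, rfl⟩ := mem_map.1 ha
    exact ⟨b, ⟨f, hf, hb⟩, rfl⟩
  · rintro ⟨b, ⟨f, hf, hb⟩, rfl⟩
    exact ⟨_, ⟨f, hf, rfl⟩, mem_map.2 ⟨b, hb, rfl⟩⟩

lemma filter_map_emb (ψ : β ↪ α) (F : Finset (Finset β)) (b : β) :
    (F.map (Finset.mapEmbedding ψ).toEmbedding).filter (fun e => ψ b ∈ e) =
      (F.filter (fun e => b ∈ e)).map (Finset.mapEmbedding ψ).toEmbedding := by
  ext e
  simp only [mem_filter, mem_map]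
  constructor
  · rintro ⟨⟨f, hf, rfl⟩, ha⟩
    obtain ⟨b', hb', h⟩ := mem_map.1 ha
    rw [ψ.injective h] at hb'
    exact ⟨f, ⟨hf, hb'⟩, rfl⟩
  · rintro ⟨f, ⟨hf, hb⟩, rfl⟩
    exact ⟨⟨f, hf, rfl⟩, mem_map.2 ⟨b, hb, rfl⟩⟩

lemma twoReg_map_iff (ψ : β ↪ α) (F : Finset (Finset β)) :
    TwoReg (F.map (Finset.mapEmbedding ψ).toEmbedding) ↔ TwoReg F := by
  unfold TwoReg
  rw [biUnion_map_emb]
  simp only [mem_map]
  constructor
  · intro h b hb
    have := h (ψ b) ⟨b, hb, rfl⟩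
    rwa [filter_map_emb, card_map] at this
  · rintro h _ ⟨b, hb, rfl⟩
    rw [filter_map_emb, card_map]
    exact h b hb

lemma good_map (ψ : β ↪ α) {H : Finset (Finset β)} (hH : Good H) :
    Good (H.map (Finset.mapEmbedding ψ).toEmbedding) := by
  intro F hF h2 h6
  obtain ⟨F', hF', rfl⟩ := Finset.subset_map_iff.1 hF
  rw [biUnion_map_emb, card_map] at h6
  exact hH F' hF' ((twoReg_map_iff ψ F').1 h2) h6

lemma good_of_map (ψ : β ↪ α) {H : Finset (Finset β)}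
    (hH : Good (H.map (Finset.mapEmbedding ψ).toEmbedding)) : Good H := by
  intro F hF h2 h6
  refine hH _ (Finset.map_subset_map.2 hF) ((twoReg_map_iff ψ F).2 h2) ?_
  rw [biUnion_map_emb, card_map]
  exact h6

/-- transfer to a finite subset of any type -/
lemma HasGood.on {n : ℕ} (h : HasGood n) (B : Finset α) (hB : B.card = n) :
    ∃ H : Finset (Finset α), (∀ e ∈ H, e.card = 3 ∧ e ⊆ B) ∧ Good H ∧ H.card = n.choose 2 := by
  obtain ⟨H, h3, hg, hc⟩ := h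
  let ψ : Fin n ↪ α := (B.equivFinOfCardEq hB).symm.toEmbedding.trans (Function.Embedding.subtype _)
  refine ⟨H.map (Finset.mapEmbedding ψ).toEmbedding, ?_, good_map ψ hg, by rw [card_map, hc]⟩
  intro e he
  obtain ⟨f, hf, rfl⟩ := mem_map.1 he
  refine ⟨?_, ?_⟩
  · change (f.map ψ).card = 3
    rw [card_map]; exact h3 f hf
  · change f.map ψ ⊆ B
    intro a ha
    obtain ⟨b, _, rfl⟩ := mem_map.1 ha
    exact ((B.equivFinOfCardEq hB).symm b).2

/-- transfer from a finite subset of any type -/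
lemma hasGood_of (U : Finset α) (H : Finset (Finset α)) (h : ∀ e ∈ H, e.card = 3 ∧ e ⊆ U)
    (hg : Good H) (hc : H.card = U.card.choose 2) : HasGood U.card := by
  let ψ : Fin U.card ↪ α := U.equivFin.symm.toEmbedding.trans (Function.Embedding.subtype _)
  let H' : Finset (Finset (Fin U.card)) := univ.filter (fun s => s.map ψ ∈ H)
  have hmap : H'.map (Finset.mapEmbedding ψ).toEmbedding = H := by
    ext e
    simp only [mem_map]
    constructor
    · rintro ⟨s, hs, rfl⟩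
      exact (mem_filter.1 hs).2
    · intro he
      have hs : (univ.filter (fun i => ψ i ∈ e)).map ψ = e := by
        ext a
        simp only [mem_map, mem_filter, mem_univ, true_and]
        constructor
        · rintro ⟨i, hi, rfl⟩; exact hi
        · intro ha
          refine ⟨U.equivFin ⟨a, (h e he).2 ha⟩, ?_, ?_⟩
          · simpa [ψ] using ha
          · simp [ψ]
      refine ⟨univ.filter (fun i => ψ i ∈ e), ?_, hs⟩
      refine mem_filter.2 ⟨mem_univ _, ?_⟩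
      rw [hs]; exact he
  refine ⟨H', ?_, ?_, ?_⟩
  · intro s hs
    have := (h _ (mem_filter.1 hs).2).1
    rwa [card_map] at this
  · apply good_of_map ψ
    rw [hmap]; exact hg
  · rw [← hc, ← hmap, card_map]

end transfer

lemma hasGood_five : HasGood 5 := by
  refine ⟨(univ : Finset (Fin 5)).powersetCard 3, ?_, ?_, ?_⟩
  · intro e he; exact (mem_powersetCard.1 he).2
  · intro F _ _ h6
    have := Finset.card_le_univ (F.biUnion id)
    simp [h6] at this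
  · simp [card_powersetCard]; decide

section quad

variable {α : Type*} [DecidableEq α]

/-- four distinct triples, every vertex in exactly zero or two of them -/
structure Quad (A B C D : Finset α) : Prop where
  cA : A.card = 3
  cB : B.card = 3
  cC : C.card = 3
  cD : D.card = 3
  nAB : A ≠ B
  nAC : A ≠ C
  nAD : A ≠ D
  nBC : B ≠ C
  nBD : B ≠ D
  nCD : C ≠ D
  ex : ∀ v, (v ∉ A ∧ v ∉ B ∧ v ∉ C ∧ v ∉ D) ∨ (v ∈ A ∧ v ∈ B ∧ v ∉ C ∧ v ∉ D) ∨
    (v ∈ A ∧ v ∉ B ∧ v ∈ C ∧ v ∉ D) ∨ (v ∈ A ∧ v ∉ B ∧ v ∉ C ∧ v ∈ D) ∨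
    (v ∉ A ∧ v ∈ B ∧ v ∈ C ∧ v ∉ D) ∨ (v ∉ A ∧ v ∈ B ∧ v ∉ C ∧ v ∈ D) ∨
    (v ∉ A ∧ v ∉ B ∧ v ∈ C ∧ v ∈ D)

omit [DecidableEq α] in
lemma Quad.swapAB {A B C D : Finset α} (h : Quad A B C D) : Quad B A C D :=
  ⟨h.cB, h.cA, h.cC, h.cD, h.nAB.symm, h.nBC, h.nBD, h.nAC, h.nAD, h.nCD,
    fun v => by rcases h.ex v with h | h | h | h | h | h | h <;> simp [h]⟩

omit [DecidableEq α] in
lemma Quad.swapBC {A B C D : Finset α} (h : Quad A B C D) : Quad A C B D :=
  ⟨h.cA, h.cC, h.cB, h.cD, h.nAC, h.nAB, h.nAD, h.nBC.symm, h.nCD, h.nBD,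
    fun v => by rcases h.ex v with h | h | h | h | h | h | h <;> simp [h]⟩

omit [DecidableEq α] in
lemma Quad.swapCD {A B C D : Finset α} (h : Quad A B C D) : Quad A B D C :=
  ⟨h.cA, h.cB, h.cD, h.cC, h.nAB, h.nAD, h.nAC, h.nBD, h.nBC, h.nCD.symm,
    fun v => by rcases h.ex v with h | h | h | h | h | h | h <;> simp [h]⟩

/-- a 2-regular family of triples on six vertices is a `Quad` -/
lemma exists_quad {F : Finset (Finset α)} (h3 : ∀ e ∈ F, e.card = 3) (h2 : TwoReg F)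
    (h6 : (F.biUnion id).card = 6) :
    ∃ A B C D, F = {A, B, C, D} ∧ Quad A B C D := by
  have hcard : F.card = 4 := by
    have h := Finset.sum_card_bipartiteAbove_eq_sum_card_bipartiteBelow
      (s := F) (t := F.biUnion id) (fun e v => v ∈ e)
    have h1 : ∀ e ∈ F, ((F.biUnion id).bipartiteAbove (fun e v => v ∈ e) e).card = 3 := by
      intro e he
      have : (F.biUnion id).bipartiteAbove (fun e v => v ∈ e) e = e := by
        ext v
        simp only [mem_bipartiteAbove, mem_biUnion, id]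
        exact ⟨fun h => h.2, fun h => ⟨⟨e, he, h⟩, h⟩⟩
      rw [this]; exact h3 e he
    have h2' : ∀ v ∈ F.biUnion id, (F.bipartiteBelow (fun e v => v ∈ e) v).card = 2 := by
      intro v hv
      exact h2 v hv
    rw [Finset.sum_congr rfl h1, Finset.sum_congr rfl h2'] at h
    simp only [sum_const, smul_eq_mul, h6] at h
    omega
  obtain ⟨A, hA⟩ : F.Nonempty := by rw [← card_pos]; omega
  have hc3 : (F.erase A).card = 3 := by rw [card_erase_of_mem hA, hcard]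
  obtain ⟨B, C, D, hBC, hBD, hCD, hF⟩ := card_eq_three.1 hc3
  have hB : B ∈ F.erase A := by rw [hF]; simp
  have hC : C ∈ F.erase A := by rw [hF]; simp
  have hD : D ∈ F.erase A := by rw [hF]; simp
  rw [mem_erase] at hB hC hD
  have hFeq : F = {A, B, C, D} := by
    rw [← insert_erase hA, hF]
  refine ⟨A, B, C, D, hFeq, ⟨h3 A hA, h3 B hB.2, h3 C hC.2, h3 D hD.2, hB.1.symm, hC.1.symm,
    hD.1.symm, hBC, hBD, hCD, ?_⟩⟩
  intro v
  by_cases hv : v ∈ F.biUnion id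
  · have hc := h2 v hv
    rw [hFeq] at hc
    have hAB := hB.1.symm
    have hAC := hC.1.symm
    have hAD := hD.1.symm
    by_cases a : v ∈ A <;> by_cases b : v ∈ B <;> by_cases c : v ∈ C <;> by_cases d : v ∈ D <;>
      simp [filter_insert, filter_singleton, a, b, c, d, hAB, hAC, hAD, hBC, hBD, hCD] at hc ⊢
  · left
    simp only [mem_biUnion, id, not_exists, not_and] at hv
    exact ⟨hv A hA, hv B hB.2, hv C hC.2, hv D hD.2⟩

/-- If two members of a quad lie in the same block, so does the third. -/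
lemma Quad.third {A B C D : Finset α} (h : Quad A B C D) {𝓑 : Set (Finset α)}
    (hlin : ∀ X ∈ 𝓑, ∀ Y ∈ 𝓑, ∀ p q, p ≠ q → p ∈ X → q ∈ X → p ∈ Y → q ∈ Y → X = Y)
    {β γ δ : Finset α} (hβ : β ∈ 𝓑) (hγ : γ ∈ 𝓑) (hδ : δ ∈ 𝓑)
    (hA : A ⊆ β) (hB : B ⊆ β) (hC : C ⊆ γ) (hD : D ⊆ δ) : γ = β := by
  by_contra hne
  -- at most one vertex of `C` lies in `A ∪ B`
  have hsmall : ∀ u v, u ∈ β → u ∈ γ → v ∈ β → v ∈ γ → u = v := by
    intro u v h1 h2 h3 h4
    by_contra huv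
    exact hne (hlin γ hγ β hβ u v huv h2 h4 h1 h3)
  -- `γ = δ`
  have hγδ : γ = δ := by
    obtain ⟨c1, c2, c3, h12, h13, h23, hCeq⟩ := card_eq_three.1 h.cC
    have hc1 : c1 ∈ C := by rw [hCeq]; simp
    have hc2 : c2 ∈ C := by rw [hCeq]; simp
    have hc3 : c3 ∈ C := by rw [hCeq]; simp
    have hcase : ∀ c ∈ C, c ∈ β ∨ c ∈ D := by
      intro c hc
      rcases h.ex c with h | h | h | h | h | h | h
      · exact absurd hc h.2.2.1
      · exact absurd hc h.2.2.1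
      · exact Or.inl (hA h.1)
      · exact absurd hc h.2.2.1
      · exact Or.inl (hB h.2.1)
      · exact absurd hc h.2.2.1
      · exact Or.inr h.2.2.2
    rcases hcase c1 hc1 with h1 | h1
    · rcases hcase c2 hc2 with h2 | h2
      · exact absurd (hsmall c1 c2 h1 (hC hc1) h2 (hC hc2)) h12
      · rcases hcase c3 hc3 with h3 | h3
        · exact absurd (hsmall c1 c3 h1 (hC hc1) h3 (hC hc3)) h13
        · exact hlin γ hγ δ hδ c2 c3 h23 (hC hc2) (hC hc3) (hD h2) (hD h3)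
    · rcases hcase c2 hc2 with h2 | h2
      · rcases hcase c3 hc3 with h3 | h3
        · exact absurd (hsmall c2 c3 h2 (hC hc2) h3 (hC hc3)) h23
        · exact hlin γ hγ δ hδ c1 c3 h13 (hC hc1) (hC hc3) (hD h1) (hD h3)
      · exact hlin γ hγ δ hδ c1 c2 h12 (hC hc1) (hC hc2) (hD h1) (hD h2)
  subst hγδ
  -- `A` is not contained in `B`
  obtain ⟨z, hzA, hzB⟩ : ∃ z ∈ A, z ∉ B := by
    by_contra hno
    push Not at hno
    exact h.nAB (eq_of_subset_of_card_le hno (by rw [h.cA, h.cB]))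
  obtain ⟨w, hwB, hwA⟩ : ∃ w ∈ B, w ∉ A := by
    by_contra hno
    push Not at hno
    exact h.nAB (eq_of_subset_of_card_le hno (by rw [h.cA, h.cB])).symm
  have hz : z ∈ γ := by
    rcases h.ex z with h | h | h | h | h | h | h
    · exact absurd hzA h.1
    · exact absurd h.2.1 hzB
    · exact hC h.2.2.1
    · exact hD h.2.2.2
    · exact absurd hzA h.1
    · exact absurd hzA h.1
    · exact absurd hzA h.1
  have hw : w ∈ γ := by
    rcases h.ex w with h | h | h | h | h | h | h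
    · exact absurd hwB h.2.1
    · exact absurd h.1 hwA
    · exact absurd hwB h.2.1
    · exact absurd hwB h.2.1
    · exact hC h.2.2.1
    · exact hD h.2.2.2
    · exact absurd hwB h.2.1
  have := hsmall z w (hA hzA) hz (hB hwB) hw
  rw [this] at hzA
  exact hwA hzA

/-- in a quad with pairwise intersections of size at most one, `A` meets `B` -/
lemma Quad.meet {A B C D : Finset α} (h : Quad A B C D)
    (hAC : ∀ u v, u ∈ A → u ∈ C → v ∈ A → v ∈ C → u = v)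
    (hAD : ∀ u v, u ∈ A → u ∈ D → v ∈ A → v ∈ D → u = v) :
    ∃ p, p ∈ A ∧ p ∈ B ∧ p ∉ C ∧ p ∉ D := by
  by_contra hno
  have hcov : A ⊆ (A ∩ C) ∪ (A ∩ D) := by
    intro v hv
    rw [mem_union, mem_inter, mem_inter]
    rcases h.ex v with h | h | h | h | h | h | h
    · exact absurd hv h.1
    · exact absurd ⟨v, h⟩ hno
    · exact Or.inl ⟨hv, h.2.2.1⟩
    · exact Or.inr ⟨hv, h.2.2.2⟩
    · exact absurd hv h.1
    · exact absurd hv h.1
    · exact absurd hv h.1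
  have h1 : (A ∩ C).card ≤ 1 := card_le_one.2 fun u hu v hv =>
    hAC u v (mem_inter.1 hu).1 (mem_inter.1 hu).2 (mem_inter.1 hv).1 (mem_inter.1 hv).2
  have h2 : (A ∩ D).card ≤ 1 := card_le_one.2 fun u hu v hv =>
    hAD u v (mem_inter.1 hu).1 (mem_inter.1 hu).2 (mem_inter.1 hv).1 (mem_inter.1 hv).2
  have h3 := card_le_card hcov
  have h4 := card_union_le (A ∩ C) (A ∩ D)
  have := h.cA
  omega

/-- A configuration of four pairwise distinct blocks meeting pairwise in six distinct points. -/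
def ONan (𝓑 : Finset (Finset α)) : Prop :=
  ∃ B1 ∈ 𝓑, ∃ B2 ∈ 𝓑, ∃ B3 ∈ 𝓑, ∃ B4 ∈ 𝓑,
    B1 ≠ B2 ∧ B1 ≠ B3 ∧ B1 ≠ B4 ∧ B2 ≠ B3 ∧ B2 ≠ B4 ∧ B3 ≠ B4 ∧
    ∃ p12 p13 p14 p23 p24 p34 : α,
      p12 ≠ p13 ∧ p12 ≠ p14 ∧ p13 ≠ p14 ∧ p12 ≠ p23 ∧ p12 ≠ p24 ∧ p23 ≠ p24 ∧
      p13 ≠ p23 ∧ p13 ≠ p34 ∧ p23 ≠ p34 ∧ p14 ≠ p24 ∧ p14 ≠ p34 ∧ p24 ≠ p34 ∧
      (p12 ∈ B1 ∧ p12 ∈ B2) ∧ (p13 ∈ B1 ∧ p13 ∈ B3) ∧ (p14 ∈ B1 ∧ p14 ∈ B4) ∧
      (p23 ∈ B2 ∧ p23 ∈ B3) ∧ (p24 ∈ B2 ∧ p24 ∈ B4) ∧ (p34 ∈ B3 ∧ p34 ∈ B4)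

/-- Composition: replace the blocks of an O'Nan-free linear space by good 3-graphs. -/
theorem compose {U : Finset α} {𝓑 : Finset (Finset α)} {m : ℕ} (hm : HasGood m)
    (hB : ∀ B ∈ 𝓑, B ⊆ U ∧ B.card = m)
    (hex : ∀ p ∈ U, ∀ q ∈ U, p ≠ q → ∃ B ∈ 𝓑, p ∈ B ∧ q ∈ B)
    (hlin : ∀ X ∈ 𝓑, ∀ Y ∈ 𝓑, ∀ p q, p ≠ q → p ∈ X → q ∈ X → p ∈ Y → q ∈ Y → X = Y)
    (hON : ¬ ONan 𝓑) : HasGood U.card := by
  have hch : ∀ B : Finset α, ∃ H : Finset (Finset α), B ∈ 𝓑 →
      (∀ e ∈ H, e.card = 3 ∧ e ⊆ B) ∧ Good H ∧ H.card = m.choose 2 := by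
    intro B
    by_cases h : B ∈ 𝓑
    · obtain ⟨H, h1⟩ := hm.on B (hB B h).2
      exact ⟨H, fun _ => h1⟩
    · exact ⟨∅, fun h' => absurd h' h⟩
  choose HB hHB using hch
  have hH : ∀ e ∈ 𝓑.biUnion HB, e.card = 3 ∧ ∃ B ∈ 𝓑, e ∈ HB B ∧ e ⊆ B := by
    intro e he
    obtain ⟨B, hB', heB⟩ := mem_biUnion.1 he
    have := (hHB B hB').1 e heB
    exact ⟨this.1, B, hB', heB, this.2⟩
  refine hasGood_of U (𝓑.biUnion HB) ?_ ?_ ?_
  · intro e he
    obtain ⟨h3, B, hB', _, heB⟩ := hH e he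
    exact ⟨h3, heB.trans (hB B hB').1⟩
  · intro F hF h2 h6
    obtain ⟨A, B, C, D, hFeq, hQ⟩ := exists_quad (fun e he => (hH e (hF he)).1) h2 h6
    have hAF : A ∈ F := by rw [hFeq]; simp
    have hBF : B ∈ F := by rw [hFeq]; simp
    have hCF : C ∈ F := by rw [hFeq]; simp
    have hDF : D ∈ F := by rw [hFeq]; simp
    obtain ⟨_, a, ha, haH, hAa⟩ := hH A (hF hAF)
    obtain ⟨_, b, hb, hbH, hBb⟩ := hH B (hF hBF)
    obtain ⟨_, c, hc, hcH, hCc⟩ := hH C (hF hCF)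
    obtain ⟨_, d, hd, hdH, hDd⟩ := hH D (hF hDF)
    -- all blocks equal is impossible
    have hconst : ¬ (b = a ∧ c = a ∧ d = a) := by
      rintro ⟨rfl, rfl, rfl⟩
      refine (hHB _ hd).2.1 F ?_ h2 h6
      rw [hFeq]
      intro e he
      simp only [mem_insert, mem_singleton] at he
      rcases he with rfl | rfl | rfl | rfl <;> assumption
    have hlin' : ∀ X ∈ (𝓑 : Set (Finset α)), ∀ Y ∈ (𝓑 : Set (Finset α)), ∀ p q, p ≠ q →
        p ∈ X → q ∈ X → p ∈ Y → q ∈ Y → X = Y := hlin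
    have T : ∀ {A B C D a b c d : Finset α}, Quad A B C D → a ∈ 𝓑 → c ∈ 𝓑 → d ∈ 𝓑 →
        A ⊆ a → B ⊆ b → C ⊆ c → D ⊆ d → a = b → c = a ∧ d = a := by
      intro A B C D a b c d hQ ha hc hd hA hB hC hD hab
      rw [← hab] at hB
      exact ⟨hQ.third hlin' ha hc hd hA hB hC hD, hQ.swapCD.third hlin' ha hd hc hA hB hD hC⟩
    have nab : a ≠ b := by
      intro h
      obtain ⟨h1, h2⟩ := T hQ ha hc hd hAa hBb hCc hDd h
      exact hconst ⟨h.symm, h1, h2⟩
    have nac : a ≠ c := by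
      intro h
      obtain ⟨h1, h2⟩ := T hQ.swapBC ha hb hd hAa hCc hBb hDd h
      exact hconst ⟨h1, h.symm, h2⟩
    have nad : a ≠ d := by
      intro h
      obtain ⟨h1, h2⟩ := T hQ.swapCD.swapBC ha hb hc hAa hDd hBb hCc h
      exact hconst ⟨h1, h2, h.symm⟩
    have nbc : b ≠ c := by
      intro h
      obtain ⟨h1, h2⟩ := T hQ.swapAB.swapBC hb ha hd hBb hCc hAa hDd h
      exact hconst ⟨h1.symm, h.symm.trans h1.symm, h2.trans h1.symm⟩
    have nbd : b ≠ d := by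
      intro h
      obtain ⟨h1, h2⟩ := T hQ.swapAB.swapCD.swapBC hb ha hc hBb hDd hAa hCc h
      exact hconst ⟨h1.symm, h2.trans h1.symm, h.symm.trans h1.symm⟩
    have ncd : c ≠ d := by
      intro h
      obtain ⟨h1, h2⟩ := T hQ.swapBC.swapAB.swapCD.swapBC hc ha hb hCc hDd hAa hBb h
      exact hconst ⟨h2.trans h1.symm, h1.symm, h.symm.trans h1.symm⟩
    have one : ∀ {X Y x y : Finset α}, x ∈ 𝓑 → y ∈ 𝓑 → X ⊆ x → Y ⊆ y → x ≠ y →
        ∀ u v, u ∈ X → u ∈ Y → v ∈ X → v ∈ Y → u = v := by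
      intro X Y x y hx hy hX hY hxy u v h1 h2 h3 h4
      by_contra huv
      exact hxy (hlin x hx y hy u v huv (hX h1) (hX h3) (hY h2) (hY h4))
    -- the six points
    obtain ⟨p12, hp12⟩ := hQ.meet (one ha hc hAa hCc nac) (one ha hd hAa hDd nad)
    obtain ⟨p13, hp13⟩ := hQ.swapBC.meet (one ha hb hAa hBb nab) (one ha hd hAa hDd nad)
    obtain ⟨p14, hp14⟩ := hQ.swapCD.swapBC.meet (one ha hb hAa hBb nab) (one ha hc hAa hCc nac)
    obtain ⟨p23, hp23⟩ := hQ.swapAB.swapBC.meet (one hb ha hBb hAa nab.symm)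
      (one hb hd hBb hDd nbd)
    obtain ⟨p24, hp24⟩ := hQ.swapAB.swapCD.swapBC.meet (one hb ha hBb hAa nab.symm)
      (one hb hc hBb hCc nbc)
    obtain ⟨p34, hp34⟩ := hQ.swapBC.swapAB.swapCD.swapBC.meet (one hc ha hCc hAa nac.symm)
      (one hc hb hCc hBb nbc.symm)
    apply hON
    refine ⟨a, ha, b, hb, c, hc, d, hd, nab, nac, nad, nbc, nbd, ncd,
      p12, p13, p14, p23, p24, p34,
      fun h => hp12.2.2.1 (h ▸ hp13.2.1), fun h => hp12.2.2.2 (h ▸ hp14.2.1),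
      fun h => hp13.2.2.2 (h ▸ hp14.2.1), fun h => hp12.2.2.1 (h ▸ hp23.2.1),
      fun h => hp12.2.2.2 (h ▸ hp24.2.1), fun h => hp23.2.2.2 (h ▸ hp24.2.1),
      fun h => hp13.2.2.1 (h ▸ hp23.1), fun h => hp13.2.2.2 (h ▸ hp34.2.1),
      fun h => hp23.2.2.2 (h ▸ hp34.2.1), fun h => hp14.2.2.1 (h ▸ hp24.1),
      fun h => hp14.2.2.2 (h ▸ hp34.1), fun h => hp24.2.2.2 (h ▸ hp34.1),
      ⟨hAa hp12.1, hBb hp12.2.1⟩, ⟨hAa hp13.1, hCc hp13.2.1⟩, ⟨hAa hp14.1, hDd hp14.2.1⟩,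
      ⟨hBb hp23.1, hCc hp23.2.1⟩, ⟨hBb hp24.1, hDd hp24.2.1⟩, ⟨hCc hp34.1, hDd hp34.2.1⟩⟩
  · -- counting
    have h1 : (𝓑.biUnion HB).card = ∑ B ∈ 𝓑, m.choose 2 := by
      rw [card_biUnion]
      · exact Finset.sum_congr rfl fun B hB' => (hHB B hB').2.2
      · intro X hX Y hY hXY
        rw [Function.onFun, Finset.disjoint_left]
        intro e heX heY
        apply hXY
        have h3 := ((hHB X hX).1 e heX).1
        obtain ⟨u, v, w, huv, _, _, he⟩ := card_eq_three.1 h3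
        have hu : u ∈ e := by rw [he]; simp
        have hv : v ∈ e := by rw [he]; simp
        exact hlin X hX Y hY u v huv (((hHB X hX).1 e heX).2 hu) (((hHB X hX).1 e heX).2 hv)
          (((hHB Y hY).1 e heY).2 hu) (((hHB Y hY).1 e heY).2 hv)
    have h2 : U.powersetCard 2 = 𝓑.biUnion (fun B => B.powersetCard 2) := by
      ext e
      simp only [mem_powersetCard, mem_biUnion]
      constructor
      · rintro ⟨heU, he2⟩
        obtain ⟨u, v, huv, rfl⟩ := card_eq_two.1 he2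
        obtain ⟨B, hB', hu, hv⟩ := hex u (heU (by simp)) v (heU (by simp)) huv
        refine ⟨B, hB', ?_, he2⟩
        intro x hx
        simp only [mem_insert, mem_singleton] at hx
        rcases hx with rfl | rfl <;> assumption
      · rintro ⟨B, hB', heB, he2⟩
        exact ⟨heB.trans (hB B hB').1, he2⟩
    have h3 : U.card.choose 2 = ∑ B ∈ 𝓑, m.choose 2 := by
      rw [← card_powersetCard, h2, card_biUnion]
      · refine Finset.sum_congr rfl fun B hB' => ?_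
        rw [card_powersetCard, (hB B hB').2]
      · intro X hX Y hY hXY
        rw [Function.onFun, Finset.disjoint_left]
        intro e heX heY
        apply hXY
        rw [mem_powersetCard] at heX heY
        obtain ⟨u, v, huv, rfl⟩ := card_eq_two.1 heX.2
        exact hlin X hX Y hY u v huv (heX.1 (by simp)) (heX.1 (by simp)) (heY.1 (by simp))
          (heY.1 (by simp))
    rw [h1, h3]

end quad

end Pool.Agent.Helper23.TwoReg
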