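import Mathlib
import Pool.Agent.Helper23.TwoReg.Compose

/-!
# Hermitian unitals in characteristic two are O'Nan-free linear spaces
-/

namespace Pool.Agent.Helper23.TwoReg

open Finset

variable {F : Type*} [Field F] [Fintype F] [DecidableEq F] [CharP F 2] {s : ℕ}

local instance : Fact (Nat.Prime 2) := ⟨Nat.prime_two⟩

omit [Fintype F] [DecidableEq F] in
lemma frob_add (x y : F) : (x + y) ^ (2 ^ s) = x ^ (2 ^ s) + y ^ (2 ^ s) :=
  add_pow_char_pow x y 2 s

omit [DecidableEq F] [CharP F 2] in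
lemma frob_frob (hF : Fintype.card F = (2 ^ s) ^ 2) (x : F) : (x ^ (2 ^ s)) ^ (2 ^ s) = x := by
  rw [← pow_mul, ← sq, ← hF, FiniteField.pow_card]

lemma sum_eq_forall {ι : Type*} {t : Finset ι} {f : ι → ℕ} {b : ℕ} (h : ∀ i ∈ t, f i ≤ b)
    (hs : t.card * b ≤ ∑ i ∈ t, f i) : ∀ i ∈ t, f i = b := by
  by_contra hne
  push Not at hne
  obtain ⟨i, hi, hne⟩ := hne
  have h1 : ∑ i ∈ t, f i < ∑ i ∈ t, b :=
    Finset.sum_lt_sum h ⟨i, hi, lt_of_le_of_ne (h i hi) hne⟩
  rw [Finset.sum_const, smul_eq_mul] at h1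
  omega

/-- the subfield of size `q` -/
def K (F : Type*) [Field F] [Fintype F] [DecidableEq F] (q : ℕ) : Finset F :=
  univ.filter fun x => x ^ q = x

omit [CharP F 2] in
lemma card_fiber_T_le {q : ℕ} (hq : 2 ≤ q) (c : F) :
    (univ.filter fun y : F => y ^ q + y = c).card ≤ q := by
  classical
  let P : Polynomial F := Polynomial.X ^ q + (Polynomial.X - Polynomial.C c)
  have hdeg : P.natDegree = q := by
    have h1 : (Polynomial.X - Polynomial.C c : Polynomial F).natDegree = 1 :=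
      Polynomial.natDegree_X_sub_C c
    have h2 : (Polynomial.X ^ q : Polynomial F).natDegree = q := Polynomial.natDegree_X_pow q
    rw [Polynomial.natDegree_add_eq_left_of_natDegree_lt (by rw [h1, h2]; omega), h2]
  have hP : P ≠ 0 := by
    intro h
    rw [h] at hdeg
    simp at hdeg
    omega
  have hsub : (univ.filter fun y : F => y ^ q + y = c) ⊆ P.roots.toFinset := by
    intro y hy
    rw [mem_filter] at hy
    rw [Multiset.mem_toFinset, Polynomial.mem_roots hP, Polynomial.IsRoot.def]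
    simp only [P, Polynomial.eval_add, Polynomial.eval_pow, Polynomial.eval_X,
      Polynomial.eval_sub, Polynomial.eval_C]
    rw [← hy.2]; ring
  calc _ ≤ P.roots.toFinset.card := card_le_card hsub
    _ ≤ P.roots.card := Multiset.toFinset_card_le _
    _ ≤ P.natDegree := P.card_roots'
    _ = q := hdeg

omit [CharP F 2] in
lemma card_fiber_N_le {q : ℕ} (d : F) :
    (univ.filter fun y : F => y ^ (q + 1) = d).card ≤ q + 1 := by
  classical
  let P : Polynomial F := Polynomial.X ^ (q + 1) - Polynomial.C d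
  have hdeg : P.natDegree = q + 1 := Polynomial.natDegree_X_pow_sub_C
  have hP : P ≠ 0 := Polynomial.X_pow_sub_C_ne_zero (Nat.succ_pos q) d
  have hsub : (univ.filter fun y : F => y ^ (q + 1) = d) ⊆ P.roots.toFinset := by
    intro y hy
    rw [mem_filter] at hy
    rw [Multiset.mem_toFinset, Polynomial.mem_roots hP, Polynomial.IsRoot.def]
    simp only [P, Polynomial.eval_pow, Polynomial.eval_X, Polynomial.eval_sub, Polynomial.eval_C]
    rw [hy.2]; ring
  calc _ ≤ P.roots.toFinset.card := card_le_card hsub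
    _ ≤ P.roots.card := Multiset.toFinset_card_le _
    _ ≤ P.natDegree := P.card_roots'
    _ = q + 1 := hdeg

omit [Fintype F] [DecidableEq F] in
lemma add_self_eq_zero' (x : F) : x + x = 0 := CharTwo.add_self_eq_zero x

omit [Fintype F] [DecidableEq F] in
lemma add_eq_zero_iff_eq' {x y : F} : x + y = 0 ↔ x = y := CharTwo.add_eq_zero

lemma K_eq {q : ℕ} : K F q = univ.filter fun x : F => x ^ q + x = 0 := by
  ext x
  simp only [K, mem_filter, mem_univ, true_and]
  exact add_eq_zero_iff_eq'.symm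

lemma T_mem_K (hF : Fintype.card F = (2 ^ s) ^ 2) (y : F) : y ^ (2 ^ s) + y ∈ K F (2 ^ s) := by
  simp only [K, mem_filter, mem_univ, true_and]
  rw [frob_add, frob_frob hF]; ring

omit [CharP F 2] in
lemma N_mem_K (hF : Fintype.card F = (2 ^ s) ^ 2) (y : F) : y ^ (2 ^ s + 1) ∈ K F (2 ^ s) := by
  simp only [K, mem_filter, mem_univ, true_and]
  rw [pow_succ, mul_pow, frob_frob hF]; ring

lemma two_le (hs : s ≠ 0) : 2 ≤ 2 ^ s := by
  calc 2 = 2 ^ 1 := rfl
    _ ≤ 2 ^ s := Nat.pow_le_pow_right (by norm_num) (Nat.one_le_iff_ne_zero.2 hs)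

lemma card_K_le (hs : s ≠ 0) : (K F (2 ^ s)).card ≤ 2 ^ s := by
  rw [K_eq]; exact card_fiber_T_le (two_le hs) 0

lemma card_K_and_T (hs : s ≠ 0) (hF : Fintype.card F = (2 ^ s) ^ 2) :
    (K F (2 ^ s)).card = 2 ^ s ∧
      ∀ c ∈ K F (2 ^ s), (univ.filter fun y : F => y ^ (2 ^ s) + y = c).card = 2 ^ s := by
  have h1 : Fintype.card F = ∑ c ∈ K F (2 ^ s),
      (univ.filter fun y : F => y ^ (2 ^ s) + y = c).card := by
    rw [← card_univ]
    exact card_eq_sum_card_fiberwise fun y _ => T_mem_K hF y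
  have h2 : ∑ c ∈ K F (2 ^ s), (univ.filter fun y : F => y ^ (2 ^ s) + y = c).card ≤
      (K F (2 ^ s)).card * 2 ^ s := by
    rw [← smul_eq_mul]
    exact sum_le_card_nsmul _ _ _ fun c _ => card_fiber_T_le (two_le hs) c
  have h3 := card_K_le (F := F) hs
  have h4 : (K F (2 ^ s)).card = 2 ^ s := by
    have hpos : 0 < 2 ^ s := by positivity
    rw [← h1, hF, sq] at h2
    have := Nat.le_of_mul_le_mul_right h2 hpos
    omega
  refine ⟨h4, ?_⟩
  apply sum_eq_forall (fun c _ => card_fiber_T_le (two_le hs) c)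
  rw [← h1, hF, h4, sq]

lemma card_N (hs : s ≠ 0) (hF : Fintype.card F = (2 ^ s) ^ 2) {d : F} (hd : d ∈ K F (2 ^ s))
    (hd0 : d ≠ 0) : (univ.filter fun y : F => y ^ (2 ^ s + 1) = d).card = 2 ^ s + 1 := by
  obtain ⟨hK, _⟩ := card_K_and_T (F := F) hs hF
  have h0K : (0 : F) ∈ K F (2 ^ s) := by
    simp [K]
  have hc : ((K F (2 ^ s)).erase 0).card = 2 ^ s - 1 := by
    rw [card_erase_of_mem h0K, hK]
  have h1 : ((univ : Finset F).erase 0).card = ∑ c ∈ (K F (2 ^ s)).erase 0,
      (((univ : Finset F).erase 0).filter fun y : F => y ^ (2 ^ s + 1) = c).card := by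
    refine card_eq_sum_card_fiberwise fun y hy => ?_
    have hy0 : y ≠ 0 := by simpa using hy
    simp only [coe_erase, Set.mem_sdiff, mem_coe, Set.mem_singleton_iff]
    exact ⟨N_mem_K hF y, pow_ne_zero _ hy0⟩
  have h2 : ∀ c ∈ (K F (2 ^ s)).erase 0,
      (((univ : Finset F).erase 0).filter fun y : F => y ^ (2 ^ s + 1) = c).card ≤ 2 ^ s + 1 := by
    intro c _
    refine le_trans (card_le_card ?_) (card_fiber_N_le c)
    exact filter_subset_filter _ (erase_subset _ _)
  have h3 : ∀ c ∈ (K F (2 ^ s)).erase 0,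
      (((univ : Finset F).erase 0).filter fun y : F => y ^ (2 ^ s + 1) = c).card = 2 ^ s + 1 := by
    apply sum_eq_forall h2
    rw [← h1, hc, card_erase_of_mem (mem_univ _), card_univ, hF]
    have hpos : 1 ≤ 2 ^ s := Nat.one_le_two_pow
    obtain ⟨k, hk⟩ := Nat.exists_eq_add_of_le hpos
    rw [hk]
    have : (1 + k) ^ 2 - 1 = k * (1 + k + 1) := by
      have : (1 + k) ^ 2 = k * (1 + k + 1) + 1 := by ring
      omega
    rw [this]
    have : 1 + k - 1 = k := by omega
    rw [this]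
  have h4 := h3 d (mem_erase.2 ⟨hd0, hd⟩)
  refine Eq.trans ?_ h4
  congr 1
  ext y
  simp only [mem_filter, mem_univ, true_and, mem_erase, and_true]
  constructor
  · intro h
    refine ⟨?_, h⟩
    rintro rfl
    apply hd0
    rw [← h]; simp
  · exact fun h => h.2

/-- determinant of three vectors -/
def det (u v w : F × F × F) : F :=
  u.1 * (v.2.1 * w.2.2 - v.2.2 * w.2.1) - u.2.1 * (v.1 * w.2.2 - v.2.2 * w.1) +
    u.2.2 * (v.1 * w.2.1 - v.2.1 * w.1)

/-- points of the unital: normalized isotropic vectors -/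
def U (F : Type*) [Field F] [Fintype F] [DecidableEq F] (q : ℕ) : Finset (F × F × F) :=
  univ.filter fun w => (w = (0, 1, 0) ∨ w.2.2 = 1) ∧
    w.2.1 ^ q * w.2.2 + w.2.1 * w.2.2 ^ q + w.1 ^ (q + 1) = 0

/-- lines -/
def line (q : ℕ) (p r : F × F × F) : Finset (F × F × F) :=
  (U F q).filter fun w => det p r w = 0


omit [Fintype F] [DecidableEq F] [CharP F 2] in
/-- a vector in the span, if the cross product does not vanish -/
lemma span_of_det {u v w : F × F × F}
    (hc : u.2.1 * v.2.2 - u.2.2 * v.2.1 ≠ 0 ∨ u.1 * v.2.2 - u.2.2 * v.1 ≠ 0 ∨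
      u.1 * v.2.1 - u.2.1 * v.1 ≠ 0) (h : det u v w = 0) :
    ∃ a b : F, w = (a * u.1 + b * v.1, a * u.2.1 + b * v.2.1, a * u.2.2 + b * v.2.2) := by
  obtain ⟨u1, u2, u3⟩ := u
  obtain ⟨v1, v2, v3⟩ := v
  obtain ⟨w1, w2, w3⟩ := w
  simp only [det] at h hc ⊢
  rcases hc with hc | hc | hc
  · refine ⟨(w2 * v3 - w3 * v2) / (u2 * v3 - u3 * v2), (u2 * w3 - u3 * w2) / (u2 * v3 - u3 * v2), ?_⟩
    simp only [Prod.mk.injEq, div_mul_eq_mul_div, ← add_div, eq_div_iff hc]
    refine ⟨?_, ?_, ?_⟩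
    · linear_combination h
    · ring
    · ring
  · refine ⟨(w1 * v3 - w3 * v1) / (u1 * v3 - u3 * v1), (u1 * w3 - u3 * w1) / (u1 * v3 - u3 * v1), ?_⟩
    simp only [Prod.mk.injEq, div_mul_eq_mul_div, ← add_div, eq_div_iff hc]
    refine ⟨?_, ?_, ?_⟩
    · ring
    · linear_combination -h
    · ring
  · refine ⟨(w1 * v2 - w2 * v1) / (u1 * v2 - u2 * v1), (u1 * w2 - u2 * w1) / (u1 * v2 - u2 * v1), ?_⟩
    simp only [Prod.mk.injEq, div_mul_eq_mul_div, ← add_div, eq_div_iff hc]
    refine ⟨?_, ?_, ?_⟩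
    · ring
    · ring
    · linear_combination h

omit [CharP F 2] in
lemma mem_U {q : ℕ} {w : F × F × F} : w ∈ U F q ↔ (w = (0, 1, 0) ∨ w.2.2 = 1) ∧
    w.2.1 ^ q * w.2.2 + w.2.1 * w.2.2 ^ q + w.1 ^ (q + 1) = 0 := by
  simp [U]

omit [CharP F 2] in
/-- distinct points have nonvanishing cross product -/
lemma cross_ne {q : ℕ} {u v : F × F × F} (hu : u ∈ U F q) (hv : v ∈ U F q) (huv : u ≠ v) :
    u.2.1 * v.2.2 - u.2.2 * v.2.1 ≠ 0 ∨ u.1 * v.2.2 - u.2.2 * v.1 ≠ 0 ∨
      u.1 * v.2.1 - u.2.1 * v.1 ≠ 0 := by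
  by_contra hno
  push Not at hno
  obtain ⟨h1, h2, h3⟩ := hno
  rw [mem_U] at hu hv
  obtain ⟨u1, u2, u3⟩ := u
  obtain ⟨v1, v2, v3⟩ := v
  simp only [Prod.mk.injEq] at *
  rcases hu.1 with ⟨rfl, rfl, rfl⟩ | hu3
  · rcases hv.1 with ⟨rfl, rfl, rfl⟩ | hv3
    · simp at huv
    · rw [hv3] at h1; simp at h1
  · rcases hv.1 with ⟨rfl, rfl, rfl⟩ | hv3
    · rw [hu3] at h1; simp at h1
    · apply huv
      rw [hu3, hv3] at h1 h2
      have e1 : u1 = v1 := by linear_combination h2
      have e2 : u2 = v2 := by linear_combination h1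
      rw [e1, e2, hu3, hv3]

omit [CharP F 2] in
lemma proportional {q : ℕ} {u v : F × F × F} (hu : u ∈ U F q) (hv : v ∈ U F q) {b : F}
    (h : u = (b * v.1, b * v.2.1, b * v.2.2)) : u = v := by
  by_contra huv
  rcases cross_ne hu hv huv with h1 | h1 | h1 <;> apply h1 <;> rw [h] <;> ring

omit [Fintype F] [DecidableEq F] [CharP F 2] in
lemma det_self_left (u v : F × F × F) : det u v u = 0 := by
  simp only [det]; ring

omit [Fintype F] [DecidableEq F] [CharP F 2] in
lemma det_self_right (u v : F × F × F) : det u v v = 0 := by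
  simp only [det]; ring

omit [CharP F 2] in
lemma left_mem_line {q : ℕ} {u : F × F × F} (hu : u ∈ U F q) (v : F × F × F) : u ∈ line q u v :=
  mem_filter.2 ⟨hu, det_self_left u v⟩

omit [CharP F 2] in
lemma right_mem_line {q : ℕ} {v : F × F × F} (hv : v ∈ U F q) (u : F × F × F) : v ∈ line q u v :=
  mem_filter.2 ⟨hv, det_self_right u v⟩

omit [CharP F 2] in
lemma line_eq {q : ℕ} {u v p r : F × F × F} (hu : u ∈ U F q) (hv : v ∈ U F q) (huv : u ≠ v)
    (hp : p ∈ line q u v) (hr : r ∈ line q u v) (hpr : p ≠ r) : line q p r = line q u v := by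
  have hpU := (mem_filter.1 hp).1
  have hrU := (mem_filter.1 hr).1
  obtain ⟨a, b, hab⟩ := span_of_det (cross_ne hu hv huv) (mem_filter.1 hp).2
  obtain ⟨c, d, hcd⟩ := span_of_det (cross_ne hu hv huv) (mem_filter.1 hr).2
  have hne : a * d - b * c ≠ 0 := by
    intro h0
    rcases cross_ne hpU hrU hpr with h1 | h1 | h1
    · apply h1
      rw [hab, hcd]
      linear_combination (u.2.1 * v.2.2 - u.2.2 * v.2.1) * h0
    · apply h1
      rw [hab, hcd]
      linear_combination (u.1 * v.2.2 - u.2.2 * v.1) * h0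
    · apply h1
      rw [hab, hcd]
      linear_combination (u.1 * v.2.1 - u.2.1 * v.1) * h0
  have hdet : ∀ w, det p r w = (a * d - b * c) * det u v w := by
    intro w
    rw [hab, hcd]
    simp only [det]
    ring
  ext w
  simp only [line, mem_filter, hdet, mul_eq_zero, hne, false_or]

/-- the set of lines -/
def lines (F : Type*) [Field F] [Fintype F] [DecidableEq F] (q : ℕ) :
    Finset (Finset (F × F × F)) :=
  (U F q).offDiag.image fun pr => line q pr.1 pr.2

omit [CharP F 2] in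
lemma mem_lines {q : ℕ} {B : Finset (F × F × F)} :
    B ∈ lines F q ↔ ∃ u ∈ U F q, ∃ v ∈ U F q, u ≠ v ∧ line q u v = B := by
  rw [lines, mem_image]
  constructor
  · rintro ⟨⟨u, v⟩, huv, h⟩
    rw [mem_offDiag] at huv
    exact ⟨u, huv.1, v, huv.2.1, huv.2.2, h⟩
  · rintro ⟨u, hu, v, hv, huv, h⟩
    exact ⟨(u, v), mem_offDiag.2 ⟨hu, hv, huv⟩, h⟩

omit [CharP F 2] in
lemma eq_line {q : ℕ} {B : Finset (F × F × F)} (hB : B ∈ lines F q) {p r : F × F × F}
    (hp : p ∈ B) (hr : r ∈ B) (hpr : p ≠ r) : B = line q p r := by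
  obtain ⟨u, hu, v, hv, huv, rfl⟩ := mem_lines.1 hB
  exact (line_eq hu hv huv hp hr hpr).symm

omit [CharP F 2] in
lemma lines_subset {q : ℕ} {B : Finset (F × F × F)} (hB : B ∈ lines F q) : B ⊆ U F q := by
  obtain ⟨u, hu, v, hv, huv, rfl⟩ := mem_lines.1 hB
  exact filter_subset _ _

/-- conjugate Hermitian form -/
def h (q : ℕ) (u v : F × F × F) : F :=
  u.2.1 * v.2.2 ^ q + u.2.2 * v.2.1 ^ q + u.1 * v.1 ^ q

omit [CharP F 2] in
lemma h_self {q : ℕ} {u : F × F × F} (hu : u ∈ U F q) : h q u u = 0 := by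
  have := (mem_filter.1 hu).2.2
  unfold h
  rw [← this, pow_succ]; ring

omit [DecidableEq F] in
lemma h_conj (hF : Fintype.card F = (2 ^ s) ^ 2) (u v : F × F × F) :
    (h (2 ^ s) u v) ^ (2 ^ s) = h (2 ^ s) v u := by
  unfold h
  simp only [frob_add, mul_pow, frob_frob hF]
  ring

/-- the relation on a side of the triangle -/
lemma side (hF : Fintype.card F = (2 ^ s) ^ 2) {u v w : F × F × F} (hu : u ∈ U F (2 ^ s))
    (hv : v ∈ U F (2 ^ s)) (hw : w ∈ U F (2 ^ s)) {a b : F}
    (hab : w = (a * u.1 + b * v.1, a * u.2.1 + b * v.2.1, a * u.2.2 + b * v.2.2)) :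
    a * b ^ (2 ^ s) * h (2 ^ s) u v = b * a ^ (2 ^ s) * (h (2 ^ s) u v) ^ (2 ^ s) := by
  have h1 := h_self hw
  have h2 := h_self hu
  have h3 := h_self hv
  rw [h_conj hF, ← add_eq_zero_iff_eq']
  rw [hab] at h1
  unfold h at h1 h2 h3 ⊢
  simp only [frob_add, mul_pow] at h1
  linear_combination h1 - a * a ^ (2 ^ s) * h2 - b * b ^ (2 ^ s) * h3

omit [Fintype F] [DecidableEq F] [CharP F 2] in
/-- Gram determinant -/
lemma gram (q : ℕ) (e1 e2 e3 : F × F × F) :
    h q e1 e1 * (h q e2 e2 * h q e3 e3 - h q e2 e3 * h q e3 e2) -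
      h q e1 e2 * (h q e2 e1 * h q e3 e3 - h q e2 e3 * h q e3 e1) +
      h q e1 e3 * (h q e2 e1 * h q e3 e2 - h q e2 e2 * h q e3 e1) =
    - det e1 e2 e3 * det (e1.1 ^ q, e1.2.1 ^ q, e1.2.2 ^ q) (e2.1 ^ q, e2.2.1 ^ q, e2.2.2 ^ q)
      (e3.1 ^ q, e3.2.1 ^ q, e3.2.2 ^ q) := by
  simp only [h, det]
  ring

omit [Fintype F] [DecidableEq F] in
lemma frob_det (u v w : F × F × F) :
    (det u v w) ^ (2 ^ s) = det (u.1 ^ (2 ^ s), u.2.1 ^ (2 ^ s), u.2.2 ^ (2 ^ s))
      (v.1 ^ (2 ^ s), v.2.1 ^ (2 ^ s), v.2.2 ^ (2 ^ s))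
      (w.1 ^ (2 ^ s), w.2.1 ^ (2 ^ s), w.2.2 ^ (2 ^ s)) := by
  simp only [det]
  have hsub : ∀ x y : F, (x - y) ^ (2 ^ s) = x ^ (2 ^ s) - y ^ (2 ^ s) := by
    intro x y
    rw [CharTwo.sub_eq_add, frob_add, CharTwo.sub_eq_add]
  simp only [frob_add, hsub, mul_pow]

theorem not_onan (hF : Fintype.card F = (2 ^ s) ^ 2) : ¬ ONan (lines F (2 ^ s)) := by
  rintro ⟨B1, hB1, B2, hB2, B3, hB3, B4, hB4, n12, n13, n14, n23, n24, n34,
    e1, e2, p14, e3, p24, p34, d1, d2, d3, d4, d5, d6, d7, d8, d9, d10, d11, d12,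
    ⟨m1, m2⟩, ⟨m3, m4⟩, ⟨m5, m6⟩, ⟨m7, m8⟩, ⟨m9, m10⟩, ⟨m11, m12⟩⟩
  set q := 2 ^ s with hq
  have u1 := lines_subset hB1 m1
  have u2 := lines_subset hB1 m3
  have u3 := lines_subset hB2 m7
  have u14 := lines_subset hB1 m5
  have u24 := lines_subset hB2 m9
  have u34 := lines_subset hB3 m11
  have l1 : B1 = line q e1 e2 := eq_line hB1 m1 m3 d1
  have l2 : B2 = line q e3 e1 := eq_line hB2 m7 m2 d4.symm
  have l3 : B3 = line q e2 e3 := eq_line hB3 m4 m8 d7
  have l4 : B4 = line q p14 p34 := eq_line hB4 m6 m12 d11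
  have hD : det e1 e2 e3 ≠ 0 := by
    intro h0
    have hm : e3 ∈ B1 := by rw [l1]; exact mem_filter.2 ⟨u3, h0⟩
    apply n12
    rw [eq_line hB1 m1 hm d4, eq_line hB2 m2 m7 d4]
  rw [l1] at m5
  rw [l2] at m9
  rw [l3] at m11
  rw [l4] at m10
  obtain ⟨a1, b1, h1⟩ := span_of_det (cross_ne u1 u2 d1) (mem_filter.1 m5).2
  obtain ⟨a2, b2, h2⟩ := span_of_det (cross_ne u2 u3 d7) (mem_filter.1 m11).2
  obtain ⟨a3, b3, h3⟩ := span_of_det (cross_ne u3 u1 d4.symm) (mem_filter.1 m9).2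
  have h4 : det p14 p34 p24 = 0 := (mem_filter.1 m10).2
  have hmen : (a1 * a2 * a3 + b1 * b2 * b3) * det e1 e2 e3 = 0 := by
    rw [← h4, h1, h2, h3]
    simp only [det]
    ring
  have ht : a1 * a2 * a3 = b1 * b2 * b3 := by
    rw [← add_eq_zero_iff_eq']
    rcases mul_eq_zero.1 hmen with h | h
    · exact h
    · exact absurd h hD
  have ha1 : a1 ≠ 0 := by
    rintro rfl
    apply d3.symm
    exact proportional u14 u2 (b := b1) (by rw [h1]; simp)
  have ha2 : a2 ≠ 0 := by
    rintro rfl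
    apply d9.symm
    exact proportional u34 u3 (b := b2) (by rw [h2]; simp)
  have ha3 : a3 ≠ 0 := by
    rintro rfl
    apply d5.symm
    exact proportional u24 u1 (b := b3) (by rw [h3]; simp)
  have s1 := side hF u1 u2 u14 h1
  have s2 := side hF u2 u3 u34 h2
  have s3 := side hF u3 u1 u24 h3
  set a := h q e1 e2
  set b := h q e2 e3
  set c := h q e3 e1
  have hprod : (a1 * a2 * a3) * (b1 * b2 * b3) ^ q * (a * b * c) =
      (b1 * b2 * b3) * (a1 * a2 * a3) ^ q * (a ^ q * b ^ q * c ^ q) := by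
    have : (a1 * b1 ^ q * a) * (a2 * b2 ^ q * b) * (a3 * b3 ^ q * c) =
        (b1 * a1 ^ q * a ^ q) * (b2 * a2 ^ q * b ^ q) * (b3 * a3 ^ q * c ^ q) := by
      rw [s1, s2, s3]
    simp only [mul_pow]
    linear_combination this
  rw [← ht] at hprod
  have hne : (a1 * a2 * a3) * (a1 * a2 * a3) ^ q ≠ 0 := by
    have : a1 * a2 * a3 ≠ 0 := mul_ne_zero (mul_ne_zero ha1 ha2) ha3
    exact mul_ne_zero this (pow_ne_zero _ this)
  have habc : a * b * c = a ^ q * b ^ q * c ^ q := mul_left_cancel₀ hne hprod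
  have hg := gram q e1 e2 e3
  rw [h_self u1, h_self u2, h_self u3] at hg
  have c1 : h q e2 e1 = a ^ q := (h_conj hF e1 e2).symm
  have c2 : h q e3 e2 = b ^ q := (h_conj hF e2 e3).symm
  have c3 : h q e1 e3 = c ^ q := (h_conj hF e3 e1).symm
  rw [c1, c2, c3, ← frob_det] at hg
  have hzero : a * b * c + a ^ q * b ^ q * c ^ q = 0 := add_eq_zero_iff_eq'.2 habc
  have hDD : det e1 e2 e3 * det e1 e2 e3 ^ (2 ^ s) = 0 := by
    linear_combination hg - hzero
  rcases mul_eq_zero.1 hDD with h | h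
  · exact hD h
  · exact hD (pow_eq_zero_iff (by positivity) |>.1 h)


/-- the point at infinity -/
def inf (F : Type*) [Field F] : F × F × F := (0, 1, 0)

omit [CharP F 2] in
lemma inf_mem : inf F ∈ U F (2 ^ s) := by
  rw [mem_U]
  refine ⟨Or.inl rfl, ?_⟩
  simp [inf]

omit [CharP F 2] in
lemma third_eq_one {q : ℕ} {w : F × F × F} (hw : w ∈ U F q) (h : w ≠ inf F) : w.2.2 = 1 := by
  rcases (mem_U.1 hw).1 with h' | h'
  · exact absurd h' h
  · exact h'

lemma affine_mem {q : ℕ} {x y : F} : (x, y, (1 : F)) ∈ U F q ↔ y ^ q + y = x ^ (q + 1) := by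
  rw [mem_U]
  simp only [or_true, true_and, mul_one, one_pow, add_eq_zero_iff_eq']

lemma card_line_inf (hs : s ≠ 0) (hF : Fintype.card F = (2 ^ s) ^ 2) {v : F × F × F}
    (hv : v ∈ U F (2 ^ s)) (hne : v ≠ inf F) : (line (2 ^ s) (inf F) v).card = 2 ^ s + 1 := by
  set q := 2 ^ s with hq
  have hv3 := third_eq_one hv hne
  have heq : line q (inf F) v = insert (inf F)
      ((univ.filter fun y : F => y ^ q + y = v.1 ^ (q + 1)).image fun y => (v.1, y, (1 : F))) := by
    ext w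
    rw [mem_insert, mem_image]
    constructor
    · intro hw
      by_cases hwi : w = inf F
      · exact Or.inl hwi
      · right
        have hwU := (mem_filter.1 hw).1
        have hw3 := third_eq_one hwU hwi
        have hd := (mem_filter.1 hw).2
        obtain ⟨w1, w2, w3⟩ := w
        simp only at hw3
        subst hw3
        simp only [det, inf, hv3] at hd
        have h1 : w1 = v.1 := by linear_combination hd
        refine ⟨w2, mem_filter.2 ⟨mem_univ _, ?_⟩, by rw [h1]⟩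
        rw [← h1]; exact affine_mem.1 hwU
    · rintro (rfl | ⟨y, hy, rfl⟩)
      · exact left_mem_line inf_mem _
      · refine mem_filter.2 ⟨affine_mem.2 (mem_filter.1 hy).2, ?_⟩
        simp [det, inf, hv3]
  rw [heq, card_insert_of_notMem, card_image_of_injective, (card_K_and_T hs hF).2 _ (N_mem_K hF _)]
  · intro y y' h
    simpa using h
  · intro hmem
    obtain ⟨y, _, hy⟩ := mem_image.1 hmem
    have := congrArg (fun w : F × F × F => w.2.2) hy
    simp [inf] at this

lemma card_line_affine (hs : s ≠ 0) (hF : Fintype.card F = (2 ^ s) ^ 2) {x1 y1 x2 y2 : F}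
    (hu : (x1, y1, (1 : F)) ∈ U F (2 ^ s)) (hv : (x2, y2, (1 : F)) ∈ U F (2 ^ s)) (hx : x1 ≠ x2) :
    (line (2 ^ s) (x1, y1, (1 : F)) (x2, y2, 1)).card = 2 ^ s + 1 := by
  set q := 2 ^ s with hq
  have hx' : x1 - x2 ≠ 0 := sub_ne_zero.2 hx
  obtain ⟨m, hm⟩ : ∃ m : F, m * (x1 - x2) = y1 - y2 := ⟨(y1 - y2) / (x1 - x2), div_mul_cancel₀ _ hx'⟩
  obtain ⟨b, hb⟩ : ∃ b : F, y1 = m * x1 + b := ⟨y1 - m * x1, by ring⟩
  have hb2 : y2 = m * x2 + b := by linear_combination hb + hm
  set d := b ^ q + b + m ^ (q + 1) with hd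
  have hiff : ∀ x : F, (x, m * x + b, (1 : F)) ∈ U F q ↔ (x + m ^ q) ^ (q + 1) = d := by
    intro x
    rw [affine_mem, ← add_eq_zero_iff_eq', ← add_eq_zero_iff_eq' (x := (x + m ^ q) ^ (q + 1))]
    have e1 : (x + m ^ q) ^ (q + 1) + d = (m * x + b) ^ q + (m * x + b) + x ^ (q + 1) := by
      rw [pow_succ (x + m ^ q), hd, frob_add, frob_frob hF, frob_add, mul_pow, pow_succ m,
        pow_succ x]
      have : m ^ q * m + m ^ q * m = 0 := add_self_eq_zero' _
      linear_combination this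
    rw [e1]
  have hdK : d ∈ K F q := by
    have h1 := (mem_filter.1 (T_mem_K hF b)).2
    have h2 := (mem_filter.1 (N_mem_K hF m)).2
    refine mem_filter.2 ⟨mem_univ _, ?_⟩
    rw [hd, frob_add, h1, h2]
  have hux := (hiff x1).1 (by rw [← hb]; exact hu)
  have hvx := (hiff x2).1 (by rw [← hb2]; exact hv)
  have hd0 : d ≠ 0 := by
    intro h0
    rw [h0] at hux hvx
    have h1 := pow_eq_zero_iff (Nat.succ_ne_zero q) |>.1 hux
    have h2 := pow_eq_zero_iff (Nat.succ_ne_zero q) |>.1 hvx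
    apply hx
    linear_combination h1 - h2
  have heq : line q (x1, y1, (1 : F)) (x2, y2, 1) =
      (univ.filter fun z : F => z ^ (q + 1) = d).image
        fun z => (z + m ^ q, m * (z + m ^ q) + b, (1 : F)) := by
    ext w
    rw [mem_image]
    constructor
    · intro hw
      have hwU := (mem_filter.1 hw).1
      have hdet := (mem_filter.1 hw).2
      have hwi : w ≠ inf F := by
        rintro rfl
        simp only [det, inf] at hdet
        apply hx
        linear_combination -hdet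
      have hw3 := third_eq_one hwU hwi
      obtain ⟨w1, w2, w3⟩ := w
      simp only at hw3
      subst hw3
      simp only [det] at hdet
      have hw2 : w2 = m * w1 + b := by
        have : (x1 - x2) * (w2 - (m * w1 + b)) = 0 := by
          linear_combination -hdet - (w1 - x1) * hm + (x1 - x2) * hb
        rcases mul_eq_zero.1 this with h | h
        · exact absurd h hx'
        · linear_combination h
      rw [hw2] at hwU
      refine ⟨w1 + m ^ q, mem_filter.2 ⟨mem_univ _, (hiff w1).1 hwU⟩, ?_⟩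
      have hcancel : w1 + m ^ q + m ^ q = w1 := by
        rw [add_assoc, add_self_eq_zero', add_zero]
      rw [hcancel, hw2]
    · rintro ⟨z, hz, rfl⟩
      refine mem_filter.2 ⟨?_, ?_⟩
      · rw [hiff]
        have hcancel : z + m ^ q + m ^ q = z := by
          rw [add_assoc, add_self_eq_zero', add_zero]
        rw [hcancel]
        exact (mem_filter.1 hz).2
      · simp only [det]
        rw [hb, hb2]; ring
  rw [heq, card_image_of_injective, card_N hs hF hdK hd0]
  intro z z' h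
  have := (Prod.mk.inj h).1
  exact add_right_cancel this

lemma card_line (hs : s ≠ 0) (hF : Fintype.card F = (2 ^ s) ^ 2) {u v : F × F × F}
    (hu : u ∈ U F (2 ^ s)) (hv : v ∈ U F (2 ^ s)) (huv : u ≠ v) :
    (line (2 ^ s) u v).card = 2 ^ s + 1 := by
  by_cases hui : u = inf F
  · rw [hui]; exact card_line_inf hs hF hv (fun h => huv (hui.trans h.symm))
  by_cases hvi : v = inf F
  · have h1 : line (2 ^ s) v u = line (2 ^ s) u v :=
      line_eq hu hv huv (right_mem_line hv u) (left_mem_line hu v) huv.symm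
    rw [← h1, hvi]
    exact card_line_inf hs hF hu hui
  have hu3 := third_eq_one hu hui
  have hv3 := third_eq_one hv hvi
  by_cases hx : u.1 = v.1
  · have hmem : inf F ∈ line (2 ^ s) u v := by
      refine mem_filter.2 ⟨inf_mem, ?_⟩
      simp only [det, inf, hu3, hv3, hx]
      ring
    have h1 : line (2 ^ s) (inf F) v = line (2 ^ s) u v :=
      line_eq hu hv huv hmem (right_mem_line hv u) (fun h => hvi h.symm)
    rw [← h1]
    exact card_line_inf hs hF hv hvi
  · obtain ⟨u1, u2, u3⟩ := u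
    obtain ⟨v1, v2, v3⟩ := v
    simp only at hu3 hv3 hx
    subst hu3
    subst hv3
    exact card_line_affine hs hF hu hv hx

lemma card_U (hs : s ≠ 0) (hF : Fintype.card F = (2 ^ s) ^ 2) :
    (U F (2 ^ s)).card = (2 ^ s) ^ 3 + 1 := by
  have h1 : ((U F (2 ^ s)).erase (inf F)).card = (2 ^ s) ^ 3 := by
    rw [card_eq_sum_card_fiberwise (f := fun w : F × F × F => w.1) (t := univ)
      (fun _ _ => mem_coe.2 (mem_univ _))]
    have h2 : ∀ x ∈ (univ : Finset F),
        (((U F (2 ^ s)).erase (inf F)).filter fun w : F × F × F => w.1 = x).card = 2 ^ s := by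
      intro x _
      refine Eq.trans ?_ ((card_K_and_T hs hF).2 _ (N_mem_K hF x))
      have : ((U F (2 ^ s)).erase (inf F)).filter (fun w : F × F × F => w.1 = x) =
          (univ.filter fun y : F => y ^ (2 ^ s) + y = x ^ (2 ^ s + 1)).image
            fun y => (x, y, (1 : F)) := by
        ext w
        rw [mem_filter, mem_erase, mem_image]
        constructor
        · rintro ⟨⟨h1, h2⟩, h3⟩
          have hw3 := third_eq_one h2 h1
          obtain ⟨w1, w2, w3⟩ := w
          simp only at hw3 h3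
          subst hw3
          subst h3
          exact ⟨w2, mem_filter.2 ⟨mem_univ _, affine_mem.1 h2⟩, rfl⟩
        · rintro ⟨y, hy, rfl⟩
          refine ⟨⟨?_, affine_mem.2 (mem_filter.1 hy).2⟩, rfl⟩
          intro h
          have := congrArg (fun w : F × F × F => w.2.2) h
          simp [inf] at this
      rw [this, card_image_of_injective]
      intro y y' h
      simpa using h
    rw [sum_congr rfl h2, sum_const, card_univ, hF, smul_eq_mul]
    ring
  have h2 := card_erase_add_one (inf_mem (F := F) (s := s))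
  rw [← h2, h1]

theorem hasGood_cube (hs : s ≠ 0) (h : HasGood (2 ^ s + 1)) : HasGood ((2 ^ s) ^ 3 + 1) := by
  classical
  let E := GaloisField 2 (2 * s)
  have : Fintype E := Fintype.ofFinite E
  have hE : Fintype.card E = (2 ^ s) ^ 2 := by
    rw [← Nat.card_eq_fintype_card, GaloisField.card 2 (2 * s) (by omega), ← pow_mul, mul_comm]
  rw [← card_U (F := E) hs hE]
  refine compose (𝓑 := lines E (2 ^ s)) h ?_ ?_ ?_ (not_onan hE)
  · intro B hB
    refine ⟨lines_subset hB, ?_⟩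
    obtain ⟨u, hu, v, hv, huv, rfl⟩ := mem_lines.1 hB
    exact card_line hs hE hu hv huv
  · intro p hp r hr hpr
    exact ⟨line (2 ^ s) p r, mem_lines.2 ⟨p, hp, r, hr, hpr, rfl⟩, left_mem_line hp r,
      right_mem_line hr p⟩
  · intro X hX Y hY p r hpr h1 h2 h3 h4
    rw [eq_line hX h1 h2 hpr, eq_line hY h3 h4 hpr]

theorem hasGood_tower (j : ℕ) : HasGood (2 ^ (2 * 3 ^ j) + 1) := by
  induction j with
  | zero => exact hasGood_five
  | succ j ih =>
    have h := hasGood_cube (s := 2 * 3 ^ j) (by positivity) ih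
    rw [← pow_mul] at h
    have : 2 * 3 ^ j * 3 = 2 * 3 ^ (j + 1) := by ring
    rwa [this] at h

end Pool.Agent.Helper23.TwoReg
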